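import Pool.Agent.Q255.EB.Stm

/-! # Families of elliptic curves -/

set_option autoImplicit false

namespace Pool.Agent.Q255.EB

open Finset

/-- The number of the solutions `(x, y)` of `y² = x³ + A x + B` modulo `p`. -/
def points (p : ℕ) (A B : ℤ) : ℕ :=
  ((range p ×ˢ range p).filter
    (fun xy : ℕ × ℕ => (p : ℤ) ∣ (xy.2 : ℤ) ^ 2 - ((xy.1 : ℤ) ^ 3 + A * xy.1 + B))).card

/-- The Frobenius angle in `[0, 1]` of the curve `y² = x³ + A x + B` at the prime `p`: it is `θ` with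
`2 p ^ (1 / 2) cos (π θ) = p + 1 - #E(F_p) = p - points p A B`, and `1 / 2` if `p ∣ 2 (4 A³ + 27 B²)`. -/
noncomputable def angle (A B : ℤ) (p : ℕ) : ℝ :=
  if (p : ℤ) ∣ 2 * (4 * A ^ 3 + 27 * B ^ 2) then 1 / 2
  else Real.arccos (((p : ℝ) - points p A B) / (2 * Real.sqrt p)) / Real.pi

/-- The `k`-th prime, `pk 0 = 2`. -/
noncomputable def pk (k : ℕ) : ℕ := Nat.nth Nat.Prime k

open Classical in
/-- `A(R; K)`: the number of the `k < K` for which the angles of the curve `y² = x³ + A x + B` at the `s`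
primes with the numbers `k, …, k + s - 1` lie in `I 0, …, I (s - 1)` (`R = ∏ I i`). -/
noncomputable def boxCount {s : ℕ} (I : Fin s → Set ℝ) (K : ℕ) (A B : ℤ) : ℝ :=
  ((range K).filter fun k => ∀ i : Fin s, angle A B (pk (k + i)) ∈ I i).card

/-- The average over the residues modulo `Q`. -/
noncomputable def average (d Q : ℕ) (f : (Fin d → ℤ) → ℝ) : ℝ :=
  (∑ ν ∈ Fintype.piFinset fun _ : Fin d => range Q, f (fun i => (ν i : ℤ))) / (Q : ℝ) ^ d

/-- `M(R; K)`: the mean of `A(R; K)` over all residues `ν` modulo the product of the first `K + s`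
primes, for the family `y² = x³ + a(ν) x + b(ν)`. -/
noncomputable def boxMean {d s : ℕ} (a b : MvPolynomial (Fin d) ℤ) (I : Fin s → Set ℝ) (K : ℕ) : ℝ :=
  average d (∏ i ∈ range (K + s), pk i) fun ν => boxCount I K (MvPolynomial.eval ν a) (MvPolynomial.eval ν b)

/-- The variance of `A(R; K)` over the same residues. -/
noncomputable def boxVariance {d s : ℕ} (a b : MvPolynomial (Fin d) ℤ) (I : Fin s → Set ℝ) (K : ℕ) : ℝ :=
  average d (∏ i ∈ range (K + s), pk i) fun ν =>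
    (boxCount I K (MvPolynomial.eval ν a) (MvPolynomial.eval ν b) - boxMean a b I K) ^ 2

/-- The box of the integer vectors `ν` with `m i ≤ ν i < m i + L i`. -/
noncomputable def box {d : ℕ} (m : Fin d → ℤ) (L : Fin d → ℕ) : Finset (Fin d → ℤ) :=
  Fintype.piFinset fun i => Ico (m i) (m i + L i)

open Classical in
/-- The proportion of the `ν` of the box with the property `P`. -/
noncomputable def proportion {d : ℕ} (m : Fin d → ℤ) (L : Fin d → ℕ) (P : (Fin d → ℤ) → Prop) : ℝ :=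
  (((box m L).filter P).card : ℝ) / ∏ i, (L i : ℝ)

/-! ### Proofs -/

lemma points_congr (p : ℕ) {A A' B B' : ℤ} (hA : (p : ℤ) ∣ A - A') (hB : (p : ℤ) ∣ B - B') :
    points p A B = points p A' B' := by
  unfold points
  congr 1
  apply filter_congr
  intro xy _
  have h : (p : ℤ) ∣ ((xy.2 : ℤ) ^ 2 - ((xy.1 : ℤ) ^ 3 + A * xy.1 + B)) -
      ((xy.2 : ℤ) ^ 2 - ((xy.1 : ℤ) ^ 3 + A' * xy.1 + B')) := by
    have e : ((xy.2 : ℤ) ^ 2 - ((xy.1 : ℤ) ^ 3 + A * xy.1 + B)) -
      ((xy.2 : ℤ) ^ 2 - ((xy.1 : ℤ) ^ 3 + A' * xy.1 + B')) = -((A - A') * xy.1 + (B - B')) := by ring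
    rw [e]
    exact (dvd_add (hA.mul_right _) hB).neg_right
  exact (dvd_iff_dvd_of_dvd_sub h)

lemma angle_congr (p : ℕ) {A A' B B' : ℤ} (hA : (p : ℤ) ∣ A - A') (hB : (p : ℤ) ∣ B - B') :
    angle A B p = angle A' B' p := by
  unfold angle
  rw [points_congr p hA hB]
  have h : (p : ℤ) ∣ 2 * (4 * A ^ 3 + 27 * B ^ 2) - 2 * (4 * A' ^ 3 + 27 * B' ^ 2) := by
    have e : 2 * (4 * A ^ 3 + 27 * B ^ 2) - 2 * (4 * A' ^ 3 + 27 * B' ^ 2) =
      (A - A') * (8 * (A ^ 2 + A * A' + A' ^ 2)) + (B - B') * (54 * (B + B')) := by ring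
    rw [e]
    exact dvd_add (hA.mul_right _) (hB.mul_right _)
  have h2 := dvd_iff_dvd_of_dvd_sub h
  by_cases h3 : (p : ℤ) ∣ 2 * (4 * A ^ 3 + 27 * B ^ 2)
  · rw [if_pos h3, if_pos (h2.mp h3)]
  · rw [if_neg h3, if_neg (fun h4 => h3 (h2.mpr h4))]

lemma eval_congr {d : ℕ} (p : ℕ) (a : MvPolynomial (Fin d) ℤ) {ν ν' : Fin d → ℤ}
    (h : ∀ i, (p : ℤ) ∣ ν i - ν' i) :
    (p : ℤ) ∣ MvPolynomial.eval ν a - MvPolynomial.eval ν' a := by
  induction a using MvPolynomial.induction_on with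
  | C c => simp
  | add f g hf hg =>
    rw [map_add, map_add, add_sub_add_comm]
    exact dvd_add hf hg
  | mul_X f i hf =>
    rw [map_mul, map_mul, MvPolynomial.eval_X, MvPolynomial.eval_X]
    have e : MvPolynomial.eval ν f * ν i - MvPolynomial.eval ν' f * ν' i =
      (MvPolynomial.eval ν f - MvPolynomial.eval ν' f) * ν i + (ν i - ν' i) * MvPolynomial.eval ν' f := by
      ring
    rw [e]
    exact dvd_add (hf.mul_right _) ((h i).mul_right _)

/-- the angles of the family -/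
noncomputable def ang {d : ℕ} (a b : MvPolynomial (Fin d) ℤ) (k : ℕ) (ν : Fin d → ℤ) : ℝ :=
  angle (MvPolynomial.eval ν a) (MvPolynomial.eval ν b) (pk k)

lemma pk_prime (k : ℕ) : (pk k).Prime := Nat.prime_nth_prime k

lemma pk_strictMono : StrictMono pk := Nat.nth_strictMono Nat.infinite_setOf_prime

lemma fam {d : ℕ} (a b : MvPolynomial (Fin d) ℤ) (n : ℕ) : Fam d n pk (ang a b) where
  q1 := fun k _ => (pk_prime k).one_lt.le
  cop := fun i _ j _ hij => (Nat.coprime_primes (pk_prime i) (pk_prime j)).2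
    fun h => hij (pk_strictMono.injective h)
  per := fun k _ ν ν' h => angle_congr _ (eval_congr _ a h) (eval_congr _ b h)

lemma count_eq {d s : ℕ} (a b : MvPolynomial (Fin d) ℤ) (I : Fin s → Set ℝ) (K : ℕ) (ν : Fin d → ℤ) :
    count (ang a b) I K ν = boxCount I K (MvPolynomial.eval ν a) (MvPolynomial.eval ν b) := rfl

open Classical in
lemma count_sum {d s : ℕ} (x : ℕ → (Fin d → ℤ) → ℝ) (I : Fin s → Set ℝ) (K : ℕ) (ν : Fin d → ℤ) :
    count x I K ν = ∑ k ∈ range K, if ∀ i : Fin s, x (k + i) ν ∈ I i then 1 else 0 := by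
  unfold count
  rw [Finset.sum_boole]

open Classical in
lemma ind_per {d s n : ℕ} {q : ℕ → ℕ} {x : ℕ → (Fin d → ℤ) → ℝ} (hF : Fam d n q x)
    (I : Fin s → Set ℝ) {k : ℕ} (hk : k + s ≤ n) :
    Q282LT.ZPer (Q285MD.wm q s k) (fun ν => if ∀ i : Fin s, x (k + i) ν ∈ I i then (1 : ℝ) else 0) := by
  intro ν ν' h
  have h1 : ∀ i : Fin s, x (k + i) ν = x (k + i) ν' := by
    intro i
    have hi := i.2
    refine hF.per (k + i) (by omega) ν ν' fun j => ?_
    have h2 : q (k + i) ∣ Q285MD.wm q s k := by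
      unfold Q285MD.wm
      refine dvd_prod_of_mem _ ?_
      rw [mem_Ico]
      omega
    exact (Int.natCast_dvd_natCast.2 h2).trans (h j)
  simp only [h1]

open Classical in
lemma mean_eq {d s n K : ℕ} {q : ℕ → ℕ} {x : ℕ → (Fin d → ℤ) → ℝ} (hF : Fam d n q x)
    (hK : K + s ≤ n) (I : Fin s → Set ℝ) :
    Q282LT.avg d (Q285MD.tm q (K + s)) (count x I K) = cmean q x I K := by
  have h0 : count x I K = fun ν => ∑ k ∈ range K, if ∀ i : Fin s, x (k + i) ν ∈ I i then (1 : ℝ) else 0 :=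
    funext fun ν => count_sum x I K ν
  rw [h0, Q285MD.avg_sum]
  unfold cmean
  refine sum_congr rfl fun k hk => ?_
  rw [mem_range] at hk
  have hpos : 1 ≤ Q285MD.tm q (K + s) := by
    unfold Q285MD.tm
    refine Nat.one_le_iff_ne_zero.2 (prod_ne_zero_iff.2 fun i hi => ?_)
    rw [mem_range] at hi
    have := hF.q1 i (by omega)
    omega
  have hdvd : Q285MD.wm q s k ∣ Q285MD.tm q (K + s) := by
    unfold Q285MD.wm Q285MD.tm
    refine prod_dvd_prod_of_subset _ _ _ fun i hi => ?_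
    rw [mem_Ico] at hi
    rw [mem_range]
    omega
  exact Q285MD.avg_dvd hpos hdvd (ind_per hF I (by omega))

lemma boxMean_eq {d s : ℕ} (a b : MvPolynomial (Fin d) ℤ) (I : Fin s → Set ℝ) (K : ℕ) :
    boxMean a b I K = cmean pk (ang a b) I K :=
  mean_eq (fam a b (K + s)) le_rfl I

lemma boxVariance_eq {d s : ℕ} (a b : MvPolynomial (Fin d) ℤ) (I : Fin s → Set ℝ) (K : ℕ) :
    boxVariance a b I K = Q282LT.avg d (Q285MD.tm pk (K + s)) (fun ν =>
      (count (ang a b) I K ν - cmean pk (ang a b) I K) ^ 2) := by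
  unfold boxVariance
  rw [boxMean_eq]
  rfl

lemma proportion_le {d : ℕ} {m : Fin d → ℤ} {L : Fin d → ℕ} {P : (Fin d → ℤ) → Prop} {c : ℝ}
    (hL : ∀ i, 0 < L i) {T : Finset (Fin d → ℤ)} (hT : (T.card : ℝ) ≤ c * ∏ i, (L i : ℝ))
    (h : ∀ ν ∈ box m L, ν ∉ T → ¬ P ν) : proportion m L P ≤ c := by
  classical
  unfold proportion
  have hpos : 0 < ∏ i, (L i : ℝ) := prod_pos fun i _ => by exact_mod_cast hL i
  rw [div_le_iff₀ hpos]
  refine le_trans ?_ hT
  have : ((box m L).filter P) ⊆ T := by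
    intro ν hν
    rw [mem_filter] at hν
    by_contra h1
    exact h ν hν.1 h1 hν.2
  exact_mod_cast card_le_card (by convert this)

lemma le_proportion {d : ℕ} {m : Fin d → ℤ} {L : Fin d → ℕ} {P : (Fin d → ℤ) → Prop} {c : ℝ}
    (hL : ∀ i, 0 < L i) {T : Finset (Fin d → ℤ)} (hT : (T.card : ℝ) ≤ c * ∏ i, (L i : ℝ))
    (h : ∀ ν ∈ box m L, ν ∉ T → P ν) : 1 - c ≤ proportion m L P := by
  classical
  unfold proportion
  have hpos : 0 < ∏ i, (L i : ℝ) := prod_pos fun i _ => by exact_mod_cast hL i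
  rw [le_div_iff₀ hpos]
  have hcard : ((box m L).card : ℝ) = ∏ i, (L i : ℝ) := by
    have := Q282LT.card_zbox m L
    have h2 : (box m L).card = ∏ i, L i := this
    rw [h2]
    push_cast
    rfl
  have h1 : box m L ⊆ ((box m L).filter P) ∪ T := by
    intro ν hν
    by_cases h2 : ν ∈ T
    · exact mem_union_right _ h2
    · exact mem_union_left _ (mem_filter.2 ⟨hν, h ν hν h2⟩)
  have h2 := (card_le_card h1).trans (card_union_le _ _)
  have h3 : ((box m L).card : ℝ) ≤ (((box m L).filter P).card : ℝ) + T.card := by exact_mod_cast h2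
  have h4 : (((box m L).filter P).card : ℝ) = ((@Finset.filter _ P (fun _ => Classical.propDecidable _)
      (box m L)).card : ℝ) := by
    congr!
  rw [hcard] at h3
  have h5 : (1 - c) * ∏ i, (L i : ℝ) = ∏ i, (L i : ℝ) - c * ∏ i, (L i : ℝ) := by ring
  rw [h5]
  convert (show ∏ i, (L i : ℝ) - c * ∏ i, (L i : ℝ) ≤ (((box m L).filter P).card : ℝ) by linarith) using 1

end Pool.Agent.Q255.EB
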