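import Pool.Agent.Q285.MD.Main

/-!
# All boxes at once: statements

Families `E_ν : y² = x³ + a(ν) x + b(ν)`, `ν ∈ ℤ^d`, Frobenius angles at the primes `p_k`, windows of `s`
consecutive primes.  `A(R; K)` is the number of the `k < K` whose window lies in the box `R`, `M(R; K)` its
mean in the model (independent uniform residues modulo the primes).  The deviation is
bounded for ALL boxes `R` and all `K` at once, with the exact order `√K`.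
-/

set_option autoImplicit false

namespace Pool.Agent.Q255.EB

open Finset

/-! ## Moments -/

/-- Moments of sums of functions of windows, over boxes of integer vectors.  `g k` depends on `ν` modulo
`q_k, …, q_{k+s-1}` (`Q285MD.Dat`), values in `[0, 1]`, `n = ∑_k E g_k`.  Then the mean over the box of
`(∑_{k<K} (g_k - E g_k))^(2r)` is at most `C (1 + n)^r`.

Proof.  (1) Model: for each residue class `k ≡ c (mod s)` (if `s = 0` everything is constant) the variables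
`G_k = g_k - E g_k` are independent (coprime moduli: `Q285MD.avg_prod`), `|G_k| ≤ 1`, `E G_k² ≤ E g_k`.  For
`0 ≤ t ≤ 1`, `exp (±t G) ≤ 1 ± t G + t² G²`, so `E exp (± t ∑ G_k) ≤ exp (t² n)`; with `t = (1+n)^(-1/2)`
and `y^(2r) ≤ (2r)! (exp y + exp (-y))` the `2r`-th moment is `≤ 2 (2r)! e (1+n)^r`.  Sum over the `s`
classes by convexity: factor `s^(2r)`.  (2) Box: expand the power in `K^(2r)` products of `2r` factors;
each is periodic modulo a product of at most `2 r s` of the `q_i ≤ Y` (take the lcm, or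
`∏ i ∈ the union of the windows`), so `≤ Y^(2rs)`; `Q285MD.zbox_mean` gives the mean over the box up to
`2 d Y^(2rs) / T`, `T = C₀ (d+1) Y^A`; the total error is `≤ K^(2r) · 2 Y^(2rs) / (C₀ Y^A) ≤ 1` for
`A = 2 r s + 2 r`, `C₀ = 2`, because `K ≤ Y`.  (`Y ≥ 1` if `K ≥ 1`; for `K = 0` the sum is `0`.) -/
def S_MOM : Prop :=
  ∀ s r : ℕ, ∃ (C C₀ : ℝ) (A : ℕ), 0 < C ∧ 0 < C₀ ∧
    ∀ (d K : ℕ) (q : ℕ → ℕ) (g : ℕ → (Fin d → ℤ) → ℝ), Q285MD.Dat d s K q g →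
      (∀ k < K, ∀ ν, 0 ≤ g k ν) →
      ∀ Y : ℕ, (∀ i < K + s, q i ≤ Y) → K ≤ Y → ∀ (m : Fin d → ℤ) (L : Fin d → ℕ),
        (∀ i, C₀ * (d + 1) * (Y : ℝ) ^ A ≤ L i) →
        ∑ ν ∈ Q282LT.zbox m L, (∑ k ∈ range K, Q285MD.G s q g k ν) ^ (2 * r) ≤
          (∏ i, (L i : ℝ)) *
            (C * (1 + ∑ k ∈ range K, Q282LT.avg d (Q285MD.wm q s k) (g k)) ^ r)

/-! ## Chaining -/

/-- Chaining on a dyadic grid.  `Ω` finite, `Z ω i` for grid points `i : Fin D → ℕ`, `i_l ≤ 2^J`, zero if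
some `i_l = 0`.  If for every level `j ≤ J` the increments of `Z` along an edge of length `2^(J-j)` (from a
point all of whose coordinates are multiples of `2^(J-j)`) have `2r`-th moment
`≤ card Ω · C₁ (N 2^{-j})^r`, and `r > 4 D`, then `|Z ω i| ≤ λ √N` for all grid points, except for at most
`C₂ card Ω λ^{-2r}` of the `ω`.

Proof.  `i^{(j)} = ⌊i / 2^(J-j)⌋ 2^(J-j)`; from `i^{(j-1)}` to `i^{(j)}` there are at most `D` edges of level
`j`, and `Z(i^{(0)})` is a sum of at most `D` increments of level `0` (all points with a zero coordinate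
have `Z = 0`).  So `|Z ω i| ≤ D ∑_{j ≤ J} M_j`, `M_j` the maximum over the edges of level `j`.  With
`a_j = c 2^{-j/8}`, `D ∑ a_j ≤ 1`, Markov and the union bound over the `≤ D (2^j+1)^D` edges:
`card {M_j > a_j λ √N} ≤ D (2^j+1)^D C₁ 2^{-jr} (c 2^{-j/8})^{-2r} λ^{-2r} card Ω`, and the sum over `j`
converges since `r - r/4 > D`. -/
def S_CHAIN : Prop :=
  ∀ (D r : ℕ) (C₁ : ℝ), 0 < D → 4 * D < r → 0 ≤ C₁ → ∃ C₂ : ℝ, 0 < C₂ ∧
    ∀ (Ω : Type) (S : Finset Ω) (J : ℕ) (N : ℝ) (Z : Ω → (Fin D → ℕ) → ℝ), 0 < N →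
      (∀ ω ∈ S, ∀ i : Fin D → ℕ, (∃ l, i l = 0) → Z ω i = 0) →
      (∀ j ≤ J, ∀ (l : Fin D) (i : Fin D → ℕ), (∀ l', 2 ^ (J - j) ∣ i l') → (∀ l', i l' ≤ 2 ^ J) →
        i l + 2 ^ (J - j) ≤ 2 ^ J →
        ∑ ω ∈ S, (Z ω (Function.update i l (i l + 2 ^ (J - j))) - Z ω i) ^ (2 * r) ≤
          S.card * (C₁ * (N / 2 ^ j) ^ r)) →
      ∀ lam : ℝ, 0 < lam → ∃ T : Finset Ω, T ⊆ S ∧ (T.card : ℝ) ≤ C₂ * S.card / lam ^ (2 * r) ∧
        ∀ ω ∈ S, ω ∉ T → ∀ i : Fin D → ℕ, (∀ l, i l ≤ 2 ^ J) → |Z ω i| ≤ lam * √N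

/-! ## Quantile weights -/

/-- The distribution functions (mass `< y` and mass `≤ y`, divided by the number of the indices) of the
average law of `x_k(ν)`, `k < n`, `ν` modulo `q_k`. -/
noncomputable def Fl (d n : ℕ) (q : ℕ → ℕ) (x : ℕ → (Fin d → ℤ) → ℝ) (y : ℝ) : ℝ :=
  (∑ k ∈ range n, Q282LT.avg d (q k) (fun ν => if x k ν < y then 1 else 0)) / n

noncomputable def Fr (d n : ℕ) (q : ℕ → ℕ) (x : ℕ → (Fin d → ℤ) → ℝ) (y : ℝ) : ℝ :=
  (∑ k ∈ range n, Q282LT.avg d (q k) (fun ν => if x k ν ≤ y then 1 else 0)) / n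

/-- the weight of the values below the quantile `t` -/
noncomputable def Psi (d n : ℕ) (q : ℕ → ℕ) (x : ℕ → (Fin d → ℤ) → ℝ) (t y : ℝ) : ℝ :=
  min 1 (max 0 ((t - Fl d n q x y) / (Fr d n q x y - Fl d n q x y)))

/-- Properties of the quantile weights (`n ≥ 1`, `q k ≥ 1`, `x k` periodic modulo `q k`):
(1) values in `[0,1]`, nondecreasing in `t`; at the values `y = x_k(ν)`, `k < n`: `Psi 0 y = 0`,
`Psi 1 y = 1`;
(2) for `0 ≤ t ≤ 1` the sum over `k < n` of the averages of `Psi t (x_k)` is `n t`;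
(3) for every half line `{y < b}` or `{y ≤ b}` there is `t ∈ [0,1]` with `Psi t (x_k ν) = 1` or `0` according
to whether `x_k ν` belongs to it, for all `k < n` and `ν`.

Proof: all integer vectors `ν` are congruent modulo `q k` to one of the residues that occur in the
average, so every value `y = x_k(ν)`, `k < n`, has positive mass, `Fl y < Fr y`.  (2): order the finitely
many values; the intervals `[Fl y, Fr y]` tile `[0,1]`, `Psi t y` is the proportion of `[Fl y, Fr y]` below `t`;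
the mass of `y` is `n (Fr y - Fl y)`.  (3): `t = Fl b`, resp. `Fr b`: `y < b` gives `Fr y ≤ Fl b`, `y ≥ b` gives
`Fl y ≥ Fl b`. -/
def S_PSI : Prop :=
  ∀ (d n : ℕ) (q : ℕ → ℕ) (x : ℕ → (Fin d → ℤ) → ℝ), 0 < n → (∀ k < n, 1 ≤ q k) →
    (∀ k < n, ∀ ν ν' : Fin d → ℤ, (∀ i, (q k : ℤ) ∣ ν i - ν' i) → x k ν = x k ν') →
    (∀ t y, 0 ≤ Psi d n q x t y ∧ Psi d n q x t y ≤ 1) ∧
    (∀ t t' y, t ≤ t' → Psi d n q x t y ≤ Psi d n q x t' y) ∧
    (∀ k < n, ∀ ν, Psi d n q x 0 (x k ν) = 0 ∧ Psi d n q x 1 (x k ν) = 1) ∧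
    (∀ t, 0 ≤ t → t ≤ 1 →
      ∑ k ∈ range n, Q282LT.avg d (q k) (fun ν => Psi d n q x t (x k ν)) = n * t) ∧
    (∀ b : ℝ, ∃ t, 0 ≤ t ∧ t ≤ 1 ∧ ∀ k < n, ∀ ν,
      Psi d n q x t (x k ν) = if x k ν < b then 1 else 0) ∧
    (∀ b : ℝ, ∃ t, 0 ≤ t ∧ t ≤ 1 ∧ ∀ k < n, ∀ ν,
      Psi d n q x t (x k ν) = if x k ν ≤ b then 1 else 0)

/-! ## All boxes -/

/-- The number of the windows `k < K` in the box `∏ I_i`. -/
noncomputable def count {d s : ℕ} (x : ℕ → (Fin d → ℤ) → ℝ) (I : Fin s → Set ℝ) (K : ℕ)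
    (ν : Fin d → ℤ) : ℝ :=
  open Classical in ((range K).filter fun k => ∀ i : Fin s, x (k + i) ν ∈ I i).card

/-- Its mean in the model: the sum of the averages over the residues modulo `q_k ⋯ q_{k+s-1}`. -/
noncomputable def cmean {d s : ℕ} (q : ℕ → ℕ) (x : ℕ → (Fin d → ℤ) → ℝ) (I : Fin s → Set ℝ)
    (K : ℕ) : ℝ :=
  open Classical in
  ∑ k ∈ range K, Q282LT.avg d (Q285MD.wm q s k)
    (fun ν => if ∀ i : Fin s, x (k + i) ν ∈ I i then 1 else 0)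

/-- `x_k(ν)` depends on `ν` modulo `q_k`, the `q_k` are coprime. -/
structure Fam (d n : ℕ) (q : ℕ → ℕ) (x : ℕ → (Fin d → ℤ) → ℝ) : Prop where
  q1 : ∀ k < n, 1 ≤ q k
  cop : ∀ i < n, ∀ j < n, i ≠ j → Nat.Coprime (q i) (q j)
  per : ∀ k < n, ∀ ν ν' : Fin d → ℤ, (∀ i, (q k : ℤ) ∣ ν i - ν' i) → x k ν = x k ν'

/-- The deviation on the corner sets: `∑_{k < K'} (∏_i Psi t_i (x_{k+i}) - mean)`. -/
noncomputable def Zt {d s : ℕ} (n : ℕ) (q : ℕ → ℕ) (x : ℕ → (Fin d → ℤ) → ℝ) (K' : ℕ) (t : Fin s → ℝ)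
    (ν : Fin d → ℤ) : ℝ :=
  ∑ k ∈ range K', (∏ i : Fin s, Psi d n q x (t i) (x (k + i) ν) -
    Q282LT.avg d (Q285MD.wm q s k) (fun ν => ∏ i : Fin s, Psi d n q x (t i) (x (k + i) ν)))

/-- Corner sets: for all but `C λ^{-2r}` of the vectors of the box, `|Zt| ≤ λ √(K+s)` for ALL `t ∈ [0,1]^s` and
all `K' ≤ K`.  (`n = K + s`, `r > 4(s+1)`, `λ ≥ 1`.)

Proof.  Grid: `D = s + 1`, `J` with `2^J ≤ √(K+s) < 2^(J+1)`, the point `i` stands for `t_l = i_l/2^J` (`l < s`)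
and `K' = ⌊K i_s/2^J⌋`.  `Z ν i = Zt` there; it is `0` if some `i_l = 0`.  An edge of level `j` in a
direction `l < s` is the sum over `k < K'` of `g_k - E g_k` with `0 ≤ g_k = ∏_{i≠l} Psi · (Psi_{t_l+2^{-j}} -
Psi_{t_l})(x_{k+l}) ≤ 1`, `∑ E g_k ≤ (K+s) 2^{-j}` by (2) of `S_PSI`; in the direction `s` it is the sum over
`⌊..⌋ ≤ k < ⌊..⌋`, at most `K 2^{-j} + 1` terms.  `S_MOM` (set the other `g_k = 0`): moment
`≤ C (1 + 2(K+s)2^{-j})^r ≤ C 3^r ((K+s) 2^{-j})^r`.  `S_CHAIN` with `N = K+s`.  Between the grid points: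
`∑_{k<K'} ∏ Psi t_i` is nondecreasing in `t` and `K'`, its mean changes by at most
`s (K+s) 2^{-J} + K 2^{-J} + 1 ≤ C √(K+s)` over a cell. -/
def S_CORNER : Prop :=
  ∀ s r : ℕ, 4 * (s + 1) < r → ∃ (C C₀ : ℝ) (A : ℕ), 0 < C ∧ 0 < C₀ ∧
    ∀ (d K : ℕ) (q : ℕ → ℕ) (x : ℕ → (Fin d → ℤ) → ℝ), 0 < K → Fam d (K + s) q x →
      ∀ Y : ℕ, (∀ i < K + s, q i ≤ Y) → K ≤ Y → ∀ (m : Fin d → ℤ) (L : Fin d → ℕ),
        (∀ i, C₀ * (d + 1) * (Y : ℝ) ^ A ≤ L i) →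
        ∀ lam : ℝ, 1 ≤ lam → ∃ T : Finset (Fin d → ℤ), T ⊆ Q282LT.zbox m L ∧
          (T.card : ℝ) ≤ C / lam ^ (2 * r) * ∏ i, (L i : ℝ) ∧
          ∀ ν ∈ Q282LT.zbox m L, ν ∉ T → ∀ K' ≤ K, ∀ t : Fin s → ℝ, (∀ i, 0 ≤ t i ∧ t i ≤ 1) →
            |Zt (K + s) q x K' t ν| ≤ lam * √(K + s)

/-- All boxes: for all but `C λ^{-2r}` of the vectors of the box, `|count - mean| ≤ λ √K` for ALL products of
intervals and all `K' ≤ K`.

Proof: by (3) of `S_PSI` the indicator function of an interval (`Set.OrdConnected`) at the finitely many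
values is a difference `Psi t' - Psi t` with `t ≤ t'` (an order connected set is the difference of two lower
sets; the trace of a lower set of `ℝ` on the values is the trace of `{y < b}`, `{y ≤ b}`, the empty set or everything:
`t = 0`, `1`).  So the indicator of the box is an alternating sum of `2^s` products, and
`|count - mean| ≤ 2^s sup |Zt| ≤ 2^s λ' √(K+s) ≤ 2^s √(s+1) λ' √K`; take `λ' = λ/(2^s √(s+1))` (if `λ' < 1` the
statement is trivial with `C` large). -/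
def S_BOXES : Prop :=
  ∀ s r : ℕ, 4 * (s + 1) < r → ∃ (C C₀ : ℝ) (A : ℕ), 0 < C ∧ 0 < C₀ ∧
    ∀ (d K : ℕ) (q : ℕ → ℕ) (x : ℕ → (Fin d → ℤ) → ℝ), 0 < K → Fam d (K + s) q x →
      ∀ Y : ℕ, (∀ i < K + s, q i ≤ Y) → K ≤ Y → ∀ (m : Fin d → ℤ) (L : Fin d → ℕ),
        (∀ i, C₀ * (d + 1) * (Y : ℝ) ^ A ≤ L i) →
        ∀ lam : ℝ, 1 ≤ lam → ∃ T : Finset (Fin d → ℤ), T ⊆ Q282LT.zbox m L ∧
          (T.card : ℝ) ≤ C / lam ^ (2 * r) * ∏ i, (L i : ℝ) ∧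
          ∀ ν ∈ Q282LT.zbox m L, ν ∉ T → ∀ K' ≤ K, ∀ I : Fin s → Set ℝ, (∀ i, (I i).OrdConnected) →
            |count x I K' ν - cmean q x I K'| ≤ lam * √K

/-- All boxes and all scales: for all but `C λ^{-2r}` of the vectors of the box,
`|count - mean| ≤ λ √K' (1 + log K')^η` for ALL products of intervals and all `1 ≤ K' ≤ K`.

Proof: `S_BOXES` at the scales `min (2^j) K`, `j = 1, 2, …, J`, with `λ_j = λ (j+1)^η c`, `∑ (j+1)^{-2rη} < ∞` for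
`2 r η > 1` (first replace `r` by a larger one); `K' ∈ [2^(j-1), 2^j]`, `j + 1 ≤ C (1 + log K')`. -/
def S_SCALES : Prop :=
  ∀ (s r : ℕ) (η : ℝ), 0 < η → ∃ (C C₀ : ℝ) (A : ℕ), 0 < C ∧ 0 < C₀ ∧
    ∀ (d K : ℕ) (q : ℕ → ℕ) (x : ℕ → (Fin d → ℤ) → ℝ), 0 < K → Fam d (K + s) q x →
      ∀ Y : ℕ, (∀ i < K + s, q i ≤ Y) → K ≤ Y → ∀ (m : Fin d → ℤ) (L : Fin d → ℕ),
        (∀ i, C₀ * (d + 1) * (Y : ℝ) ^ A ≤ L i) →
        ∀ lam : ℝ, 1 ≤ lam → ∃ T : Finset (Fin d → ℤ), T ⊆ Q282LT.zbox m L ∧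
          (T.card : ℝ) ≤ C / lam ^ (2 * r) * ∏ i, (L i : ℝ) ∧
          ∀ ν ∈ Q282LT.zbox m L, ν ∉ T → ∀ K' : ℕ, 0 < K' → K' ≤ K → ∀ I : Fin s → Set ℝ,
            (∀ i, (I i).OrdConnected) →
              |count x I K' ν - cmean q x I K'| ≤ lam * √K' * (1 + Real.log K') ^ η

/-- Lower bound: if some box has variance `≥ c K` in the model, then for all but a proportion `ε` of the
vectors the deviation for this box is at least `η √K`.

Proof: `Q285MD.gauss_md` with `g_k` the indicator function of the window lying in the box, at `y = ±η/√c`: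
the proportion with `|∑ G_k| < η √K ≤ (η/√c) √V` is at most `Φ(η/√c) - Φ(-η/√c) + 2ε'` (`Phi_lip'`); use `y` slightly
larger.  (`Fam` gives `Dat`: the window modulus is the product.) -/
def S_LOWER : Prop :=
  ∀ (s : ℕ) (c ε : ℝ), 0 < c → 0 < ε → ∃ (η : ℝ) (K₀ : ℕ) (C₀ : ℝ) (A : ℕ), 0 < η ∧ 0 < C₀ ∧
    ∀ (d K : ℕ) (q : ℕ → ℕ) (x : ℕ → (Fin d → ℤ) → ℝ), K₀ ≤ K → Fam d (K + s) q x →
      ∀ I : Fin s → Set ℝ,
      c * K ≤ Q282LT.avg d (Q285MD.tm q (K + s)) (fun ν => (count x I K ν - cmean q x I K) ^ 2) →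
      ∀ Y : ℕ, (∀ i < K + s, q i ≤ Y) → K ≤ Y → ∀ (m : Fin d → ℤ) (L : Fin d → ℕ),
        (∀ i, C₀ * (d + 1) * (Y : ℝ) ^ A ≤ L i) →
        ∃ T : Finset (Fin d → ℤ), T ⊆ Q282LT.zbox m L ∧ (T.card : ℝ) ≤ ε * ∏ i, (L i : ℝ) ∧
          ∀ ν ∈ Q282LT.zbox m L, ν ∉ T → η * √K ≤ |count x I K ν - cmean q x I K|

end Pool.Agent.Q255.EB
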